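import Pool.Agent.Helper81.Sus3.Goals

/-!
# Packet SUS3-GRD: the greedy sequence of inner configurations
-/

namespace Pool.Agent.Helper8.Sus3

open Pool.Agent.Helper65.LinSpace Finset
open Pool.Agent.Helper31.SusD (nxt nxt_spec nxt_of nxt_lt)
open Pool.Agent.Helper81.Sus3 (GRD_stmt)

/-- The greedy sequence with the start `e₀`. -/
def sq (ch : ℕ → ℕ → ℕ → ℕ) (N Z e₀ j : ℕ) : ℕ := nrec e₀ (fun _ e => nxt ch N Z e) j

theorem sq_zero (ch : ℕ → ℕ → ℕ → ℕ) (N Z e₀ : ℕ) : sq ch N Z e₀ 0 = e₀ := rfl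

theorem sq_succ (ch : ℕ → ℕ → ℕ → ℕ) (N Z e₀ j : ℕ) :
    sq ch N Z e₀ (j + 1) = nxt ch N Z (sq ch N Z e₀ j) := rfl

theorem sq_sound {ch : ℕ → ℕ → ℕ → ℕ} {N Z e₀ : ℕ} {R : ℕ → ℕ → Prop} (h0 : R e₀ 0)
    (hs : ∀ c t τ d, R c t → τ < N → ch c τ d ≠ 0 → R d (t + τ)) (j : ℕ) :
    sq ch N Z e₀ j = 0 ∨ ∃ t, R (sq ch N Z e₀ j) t := by
  induction j with
  | zero => exact Or.inr ⟨0, h0⟩
  | succ j ih =>
    rw [sq_succ]
    rcases nxt_spec ch N Z (sq ch N Z e₀ j) with h | ⟨τ, hτ, d, _, h1, h2⟩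
    · exact Or.inl h
    · rcases ih with h3 | ⟨t, ht⟩
      · left
        rw [h3]
        rfl
      · right
        rw [h1]
        exact ⟨t + τ, hs _ _ _ _ ht hτ h2⟩

theorem sq_complete {chk : ℕ → ℕ → ℕ → ℕ} {ac : ℕ → ℕ → ℕ} {N Z e₀ r M : ℕ} {R : ℕ → ℕ → Prop}
    (hZ : 0 < Z) (h0 : R e₀ 0) (hR : ∀ c t, R c t → c ≠ 0)
    (hs : ∀ c t τ d, R c t → t + τ ≤ r → τ ≤ M → chk c τ d ≠ 0 → R d (t + τ) ∧ 0 < τ)
    (hc : ∀ c t, R c t → t ≤ r → (∃ τ < N, ac c τ ≠ 0) ∨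
      ∃ τ < N, τ ≤ M ∧ t + τ ≤ r ∧ ∃ d < Z, chk c τ d ≠ 0) :
    ∃ j < Z + 1, sq chk N Z e₀ j ≠ 0 ∧ ∃ τ < N, ac (sq chk N Z e₀ j) τ ≠ 0 := by
  classical
  have hex : ∃ j, sq chk N Z e₀ j ≠ 0 ∧ ∃ τ < N, ac (sq chk N Z e₀ j) τ ≠ 0 := by
    by_contra hcon
    push Not at hcon
    have key : ∀ j, ∃ t, j ≤ t ∧ t ≤ r ∧ R (sq chk N Z e₀ j) t := by
      intro j
      induction j with
      | zero => exact ⟨0, le_rfl, Nat.zero_le _, h0⟩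
      | succ j ih =>
        obtain ⟨t, h1, h2, h3⟩ := ih
        rcases hc _ _ h3 h2 with ⟨τ, hτ, h4⟩ | ⟨τ, hτ, hM, h4, d, hd, h5⟩
        · exact absurd (hcon j (hR _ _ h3) τ hτ) h4
        · obtain ⟨τ', hτ', d', _, h6, h7⟩ := nxt_of (hR _ _ h3) hτ hd h5
          obtain ⟨h8, h9⟩ := hs _ _ _ _ h3 (by omega) (by omega) h7
          refine ⟨t + τ', by omega, by omega, ?_⟩
          rw [sq_succ, h6]
          exact h8
    obtain ⟨t, h1, h2, _⟩ := key (r + 1)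
    omega
  obtain ⟨J, ⟨hJ1, hJ2⟩, hmin⟩ : ∃ J, (sq chk N Z e₀ J ≠ 0 ∧
      ∃ τ < N, ac (sq chk N Z e₀ J) τ ≠ 0) ∧
      ∀ j < J, ¬(sq chk N Z e₀ j ≠ 0 ∧ ∃ τ < N, ac (sq chk N Z e₀ j) τ ≠ 0) :=
    ⟨Nat.find hex, Nat.find_spec hex, fun j hj => Nat.find_min hex hj⟩
  refine ⟨J, ?_, hJ1, hJ2⟩
  by_contra hcon
  obtain ⟨a, ha, b, hb, hab, e⟩ := exists_ne_map_eq_of_card_lt_of_maps_to
    (s := range (Z + 1)) (t := range Z) (f := fun j => sq chk N Z e₀ (j + 1))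
    (by rw [card_range, card_range]; omega)
    (fun j _ => by
      rw [coe_range, Set.mem_Iio]
      exact nxt_lt _ _ hZ _)
  rw [mem_range] at ha hb
  have e' : sq chk N Z e₀ (a + 1) = sq chk N Z e₀ (b + 1) := e
  have hcong : ∀ a b m, sq chk N Z e₀ a = sq chk N Z e₀ b →
      sq chk N Z e₀ (a + m) = sq chk N Z e₀ (b + m) := by
    intro a b m h
    induction m with
    | zero => exact h
    | succ m ih => rw [← add_assoc, ← add_assoc, sq_succ, sq_succ, ih]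
  have key : ∀ a b, a < b → b ≤ J → sq chk N Z e₀ a = sq chk N Z e₀ b → False := by
    intro a b hab hb h
    have h2 := hcong a b (J - b) h
    rw [show b + (J - b) = J by omega] at h2
    refine hmin (a + (J - b)) (by omega) ?_
    rw [h2]
    exact ⟨hJ1, hJ2⟩
  rcases Nat.lt_or_gt_of_ne hab with h | h
  · exact key (a + 1) (b + 1) (by omega) (by omega) e'
  · exact key (b + 1) (a + 1) (by omega) (by omega) e'.symm

theorem grd : GRD_stmt :=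
  ⟨fun _ _ _ _ _ h0 hs j => sq_sound h0 hs j,
    fun _ _ _ _ _ _ _ _ hZ h0 hR hs hc => sq_complete hZ h0 hR hs hc⟩

end Pool.Agent.Helper8.Sus3
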